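import Pool.Agent.Helper97_WHC.Stmt
import Pool.Agent.Helper27_TMP.Locf

/-!
# Squad WHC, row KAP: the Hecke operators `κ_l`
-/

set_option autoImplicit false
set_option linter.unusedSectionVars false

open scoped BigOperators

namespace Pool.Agent.WHC.H39

open Pool.Agent.DEN Pool.Agent.TMP Pool.Agent.WHT Pool.Agent.TMP.H27

section
variable {r : ℕ} {C : Matrix (Fin r) (Fin r) ℤ} {K : Type} [Field K] [Finite K]

/-! ### Kernels -/

theorem isKer_zero (hC : SimplyLaced C) : IsKer (0 : XX C K → XX C K → ℂ) := by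
  have h := (hKer r C hC K).2.2.2.2.1 0 kone (hKer r C hC K).2.2.2.2.2.1
  rwa [zero_smul] at h

theorem isKer_sum (hC : SimplyLaced C) {ι : Type} (s : Finset ι) (a : ι → ℂ)
    (k : ι → XX C K → XX C K → ℂ) (hk : ∀ n ∈ s, IsKer (k n)) : IsKer (∑ n ∈ s, a n • k n) := by
  classical
  induction s using Finset.induction_on with
  | empty => exact isKer_zero hC
  | insert n s hn ih =>
    rw [Finset.sum_insert hn]
    exact (hKer r C hC K).2.2.2.1 _ _
      ((hKer r C hC K).2.2.2.2.1 _ _ (hk n (Finset.mem_insert_self _ _)))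
      (ih fun m hm => hk m (Finset.mem_insert_of_mem hm))

theorem ker_ext (hC : SimplyLaced C) {k k' : XX C K → XX C K → ℂ} (hk : IsKer k) (hk' : IsKer k')
    (h : ∀ l, sat hC k l = sat hC k' l) : k = k' := by
  have h1 := fn_inj hKer hSmu hPln hC hk hk' h
  funext x y
  rw [((hKhk r C hC K).1 k hk).2.1 x y, ((hKhk r C hC K).1 k' hk').2.1 x y]
  exact congrFun h1 (x.out⁻¹ * y.out)

theorem sA_coeff (hC : SimplyLaced C) {k : XX C K → XX C K → ℂ} (hk : IsKer k) (l : Fin r → ℤ) :
    (sA hC k).coeff l = sat hC k l := by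
  unfold sA
  rw [dif_pos ((hSmu r C hC K).1 k hk)]
  rfl

theorem sA_mul (hC : SimplyLaced C) {k k' : XX C K → XX C K → ℂ} (hk : IsKer k) (hk' : IsKer k') :
    sA hC (kmul k k') = sA hC k * sA hC k' := by
  ext l
  rw [sA_coeff hC ((hKer r C hC K).2.1 _ _ hk hk'), (hSmu r C hC K).2.1 _ _ hk hk', coeff_mul_sub]
  exact finsum_congr fun m => by rw [sA_coeff hC hk, sA_coeff hC hk']

theorem sA_add (hC : SimplyLaced C) {k k' : XX C K → XX C K → ℂ} (hk : IsKer k) (hk' : IsKer k') :
    sA hC (k + k') = sA hC k + sA hC k' := by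
  ext l
  rw [sA_coeff hC ((hKer r C hC K).2.2.2.1 _ _ hk hk'), (hSmu r C hC K).2.2.1 _ _ hk hk',
    AddMonoidAlgebra.coeff_add, Finsupp.add_apply, sA_coeff hC hk, sA_coeff hC hk']

theorem sA_smul (hC : SimplyLaced C) (a : ℂ) {k : XX C K → XX C K → ℂ} (hk : IsKer k) :
    sA hC (a • k) = a • sA hC k := by
  ext l
  rw [sA_coeff hC ((hKer r C hC K).2.2.2.2.1 _ _ hk), (hSmu r C hC K).2.2.2.1 _ _ hk,
    AddMonoidAlgebra.coeff_smul, Finsupp.smul_apply, sA_coeff hC hk, smul_eq_mul]

theorem sA_zero (hC : SimplyLaced C) : sA hC (0 : XX C K → XX C K → ℂ) = 0 := by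
  have h := sA_smul hC 0 (isKer_zero (K := K) hC)
  rwa [zero_smul, zero_smul] at h

theorem sA_sum (hC : SimplyLaced C) {ι : Type} (s : Finset ι) (a : ι → ℂ)
    (k : ι → XX C K → XX C K → ℂ) (hk : ∀ n ∈ s, IsKer (k n)) :
    sA hC (∑ n ∈ s, a n • k n) = ∑ n ∈ s, a n • sA hC (k n) := by
  classical
  induction s using Finset.induction_on with
  | empty => rw [Finset.sum_empty, Finset.sum_empty]; exact sA_zero hC
  | insert n s hn ih =>
    have h1 : ∀ m ∈ s, IsKer (k m) := fun m hm => hk m (Finset.mem_insert_of_mem hm)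
    have h2 := hk n (Finset.mem_insert_self _ _)
    rw [Finset.sum_insert hn, Finset.sum_insert hn,
      sA_add hC ((hKer r C hC K).2.2.2.2.1 _ _ h2) (isKer_sum hC s a k h1), sA_smul hC _ h2, ih h1]

theorem kmul_comm (hC : SimplyLaced C) {k k' : XX C K → XX C K → ℂ} (hk : IsKer k)
    (hk' : IsKer k') : kmul k k' = kmul k' k := by
  refine ker_ext hC ((hKer r C hC K).2.1 _ _ hk hk') ((hKer r C hC K).2.1 _ _ hk' hk) fun l => ?_
  rw [← sA_coeff hC ((hKer r C hC K).2.1 _ _ hk hk'), ← sA_coeff hC ((hKer r C hC K).2.1 _ _ hk' hk),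
    sA_mul hC hk hk', sA_mul hC hk' hk, mul_comm]

theorem sA_inv (hC : SimplyLaced C) {k : XX C K → XX C K → ℂ} (hk : IsKer k) :
    ng r (sA hC k) ∈ invAlg C := by
  rw [mem_invAlg hC]
  intro i μ
  have h1 : ∀ ν : Fin r → ℤ, (ng r (sA hC k)).coeff ν = sat hC k (-ν) := by
    intro ν
    unfold ng
    rw [AddMonoidAlgebra.coeff_domCongr, ← sA_coeff hC hk]
    rfl
  rw [h1, h1, ← hWin r C hC K k hk i (-μ)]
  congr 1
  unfold sf
  rw [ip_neg_right, hC.ip_comm (al i) μ, neg_smul]
  abel

theorem ng_coeff (p : CQ r) (ν : Fin r → ℤ) : (ng r p).coeff ν = p.coeff (-ν) := by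
  unfold ng
  rw [AddMonoidAlgebra.coeff_domCongr]
  rfl

theorem ng_ng (p : CQ r) : ng r (ng r p) = p := by
  ext ν
  rw [ng_coeff, ng_coeff, neg_neg]

/-! ### The matrices -/

section mat
variable {N : Polynomial K} {χ : grp C K → ℂ} {m : Fin r → ℤ}

theorem bt_good {hC : SimplyLaced C} {k : XX C K → XX C K → ℂ} {m' : Fin r → ℤ}
    (h : bt hC χ k m m' ≠ 0) : GoodU hC χ m' := by
  by_contra h1
  apply h
  unfold bt
  rw [if_neg h1]

theorem bt_sum (cmp : CmpStmt) (hC : SimplyLaced C) (hχ : IsChi N χ) (hm : GoodU hC χ m)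
    {ι : Type} (s : Finset ι) (a : ι → ℂ) (k : ι → XX C K → XX C K → ℂ) (hk : ∀ n ∈ s, IsKer (k n))
    (m' : Fin r → ℤ) :
    bt hC χ (∑ n ∈ s, a n • k n) m m' = ∑ n ∈ s, a n * bt hC χ (k n) m m' := by
  classical
  induction s using Finset.induction_on with
  | empty =>
    rw [Finset.sum_empty, Finset.sum_empty]
    have h := ((cmp r C hC K N χ hχ 0 0 (isKer_zero hC) (isKer_zero hC) m hm).2 m').2.2.1 0
    rwa [zero_smul, zero_mul] at h
  | insert n s hn ih =>
    have h1 : ∀ m ∈ s, IsKer (k m) := fun m hm => hk m (Finset.mem_insert_of_mem hm)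
    have h2 := hk n (Finset.mem_insert_self _ _)
    have h3 := (hKer r C hC K).2.2.2.2.1 (a n) _ h2
    rw [Finset.sum_insert hn, Finset.sum_insert hn,
      ((cmp r C hC K N χ hχ _ _ h3 (isKer_sum hC s a k h1) m hm).2 m').2.1, ih h1,
      ((cmp r C hC K N χ hχ _ _ h2 h2 m hm).2 m').2.2.1]

/-- the kernels with one nonzero entry in the row `M` -/
theorem ex_kl (cmp : CmpStmt) (tri : TriStmt) (gdc : GdcStmt) (hC : SimplyLaced C)
    (hχ : IsChi N χ) {c : Fin r → ℤ} (hc : Cond hC χ c) {M : Fin r → ℤ}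
    (hM : ∀ i, ip C (al i) M = c i) (l : Fin r → ℤ) (hl : IsDom C l) :
    ∃ k : XX C K → XX C K → ℂ, IsKer k ∧
      ∀ n, bt hC χ k M n = if n = M - l then 1 else 0 := by
  classical
  have hMg : GoodU hC χ M := ((gdc r C hC K N χ hχ c hc).1 M).2 fun i => (hM i).le
  have hdom : ∀ n, GoodU hC χ n → IsDom C (M - n) := by
    intro n hn i
    have h1 := ((gdc r C hC K N χ hχ c hc).1 n).1 hn i
    rw [ip_sub_right, hM i]
    omega
  have hnn : ∀ v : Fin r → ℤ, 0 ≤ ip C v v := by
    intro v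
    by_cases hv : v = 0
    · rw [hv, ip_zero_left]
    · exact (hC.ip_pos v hv).le
  obtain ⟨b, hb⟩ : ∃ b : ℕ, b = (ip C l l).toNat := ⟨_, rfl⟩
  induction b using Nat.strong_induction_on generalizing l with
  | _ b ih =>
    obtain ⟨k, hk, ha, htri⟩ := (tri r C hC K N χ hχ c hc M hM).1 l hl
    obtain ⟨a, ha'⟩ : ∃ a, a = bt hC χ k M (M - l) := ⟨_, rfl⟩
    have hfin := (cmp r C hC K N χ hχ k k hk hk M hMg).1
    have hex : ∀ n : Fin r → ℤ, ∃ k' : XX C K → XX C K → ℂ, IsKer k' ∧
        (bt hC χ k M n ≠ 0 → n ≠ M - l → ∀ n', bt hC χ k' M n' = if n' = n then 1 else 0) := by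
      intro n
      by_cases hn : bt hC χ k M n ≠ 0 ∧ n ≠ M - l
      · have h1 : M - (M - n) = n := by abel
        have h2 : ip C (M - n) (M - n) < ip C l l := by
          refine htri (M - n) (by rw [h1]; exact hn.1) ?_
          intro h3
          exact hn.2 (by rw [← h3, h1])
        obtain ⟨k', hk', hk2⟩ := ih (ip C (M - n) (M - n)).toNat
          (by
            rw [hb]
            have := hnn (M - n)
            omega) (M - n) (hdom n (bt_good hn.1)) rfl
        refine ⟨k', hk', fun _ _ n' => ?_⟩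
        rw [hk2 n', h1]
      · exact ⟨0, isKer_zero hC, fun h1 h2 => absurd ⟨h1, h2⟩ hn⟩
    choose k' hk' hk2 using hex
    obtain ⟨s, hs⟩ : ∃ s : Finset (Fin r → ℤ), s = hfin.toFinset.erase (M - l) := ⟨_, rfl⟩
    have hs' : ∀ n, n ∈ s ↔ n ≠ M - l ∧ bt hC χ k M n ≠ 0 := by
      intro n
      rw [hs, Finset.mem_erase, Set.Finite.mem_toFinset]
      rfl
    have hksum : IsKer (∑ n ∈ s, (-(bt hC χ k M n)) • k' n) :=
      isKer_sum hC s _ k' fun n _ => hk' n
    have hkall := (hKer r C hC K).2.2.2.1 _ _ hk hksum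
    refine ⟨a⁻¹ • (k + ∑ n ∈ s, (-(bt hC χ k M n)) • k' n),
      (hKer r C hC K).2.2.2.2.1 _ _ hkall, fun n' => ?_⟩
    rw [((cmp r C hC K N χ hχ _ _ hkall hkall M hMg).2 n').2.2.1,
      ((cmp r C hC K N χ hχ _ _ hk hksum M hMg).2 n').2.1,
      bt_sum cmp hC hχ hMg s _ k' (fun n _ => hk' n)]
    have h3 : ∑ n ∈ s, -(bt hC χ k M n) * bt hC χ (k' n) M n' =
        ∑ n ∈ s, if n' = n then -(bt hC χ k M n) else 0 := by
      refine Finset.sum_congr rfl fun n hn => ?_
      have h4 := (hs' n).1 hn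
      rw [hk2 n h4.2 h4.1 n']
      split_ifs
      · rw [mul_one]
      · rw [mul_zero]
    rw [h3, Finset.sum_ite_eq]
    by_cases h5 : n' = M - l
    · rw [if_pos h5, if_neg (by rw [hs']; exact fun h => h.1 h5), add_zero, h5, ← ha']
      exact inv_mul_cancel₀ (by rw [ha']; exact ha)
    · rw [if_neg h5]
      by_cases h6 : bt hC χ k M n' = 0
      · rw [if_neg (by rw [hs']; exact fun h => h.2 h6), h6, add_zero, mul_zero]
      · rw [if_pos ((hs' n').2 ⟨h5, h6⟩), add_neg_cancel, mul_zero]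

end mat

/-! ### The kernel of an invariant -/

theorem ex_ker (hC : SimplyLaced C) (T : CQ r) (hT : T ∈ invAlg C) :
    ∃ k : XX C K → XX C K → ℂ, IsKer k ∧ (∀ l, sat hC k l = T.coeff (-l)) ∧ Rad k (rT T C) := by
  classical
  have hfin : {l : Fin r → ℤ | T.coeff (-l) ≠ 0}.Finite := by
    have h1 : {l : Fin r → ℤ | T.coeff (-l) ≠ 0} =
        (fun l => -l) ⁻¹' (T.coeff.support : Set (Fin r → ℤ)) := by
      ext l
      simp
    rw [h1]
    exact (Finset.finite_toSet _).preimage (neg_injective.injOn)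
  have hinv : ∀ i l, T.coeff (-(sf C i l)) = T.coeff (-l) := by
    intro i l
    have h1 := (mem_invAlg hC T).1 hT i (-l)
    rw [← h1]
    congr 1
    unfold sf
    rw [ip_neg_left, hC.ip_comm (al i) l, neg_smul]
    abel
  obtain ⟨B, hB⟩ : ∃ B : ℕ, B = ∑ μ ∈ T.coeff.support, (ip C μ μ).toNat := ⟨_, rfl⟩
  have hrT : rT T C = 2 * B + 1 := by
    unfold rT
    rw [hB, Finset.mul_sum]
  obtain ⟨k, hk1, hk2, hk3⟩ := hSur r C hC K (fun l => T.coeff (-l)) hfin hinv B (by
    intro l hl
    have h1 : -l ∈ T.coeff.support := Finsupp.mem_support_iff.2 hl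
    have h2 := Finset.single_le_sum (f := fun μ => (ip C μ μ).toNat) (fun _ _ => Nat.zero_le _) h1
    have h3 : ip C (-l) (-l) = ip C l l := by rw [ip_neg_left, ip_neg_right, neg_neg]
    simp only [h3] at h2
    rw [← hB] at h2
    have h4 : ip C l l ≤ ((ip C l l).toNat : ℤ) := Int.self_le_toNat _
    have h5 : ((ip C l l).toNat : ℤ) ≤ B := by exact_mod_cast h2
    exact h4.trans h5)
  refine ⟨k, hk1, hk2, ?_⟩
  have hrad : HeckeInf (fn k) (rT T C) := by
    apply hecke_radius TMP.hRad hC (((hKhk r C hC K).1 _ hk1)).1 _ _ _ hk3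
    rw [hrT]
    push_cast
    nlinarith
  intro g hg
  exact ⟨fun v hv => (hrad.2.2 g hg v hv).1, fun v hv => (hrad.2.2 g hg v hv).2⟩

/-! ### The reflection across a wall -/

/-- `s_i • l` -/
def sb (C : Matrix (Fin r) (Fin r) ℤ) (i : Fin r) (l : Fin r → ℤ) : Fin r → ℤ :=
  l - (ip C (al i) l + 1) • al i

theorem sb_ip (hC : SimplyLaced C) (i : Fin r) (l : Fin r → ℤ) :
    ip C (al i) (sb C i l) = -ip C (al i) l - 2 := by
  unfold sb
  rw [ip_sub_right, ip_smul_right, ip_al_al, hC.diag]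
  ring

theorem sb_sb (hC : SimplyLaced C) (i : Fin r) (l : Fin r → ℤ) : sb C i (sb C i l) = l := by
  have h := sb_ip hC i l
  have h1 : sb C i (sb C i l) = sb C i l - (ip C (al i) (sb C i l) + 1) • al i := rfl
  rw [h1, h]
  unfold sb
  have h2 : -ip C (al i) l - 2 + 1 = -(ip C (al i) l + 1) := by ring
  rw [h2, neg_smul, sub_neg_eq_add, sub_add_cancel]

/-- the reflection as a permutation -/
def sbE (hC : SimplyLaced C) (i : Fin r) : (Fin r → ℤ) ≃ (Fin r → ℤ) where
  toFun := sb C i
  invFun := sb C i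
  left_inv := sb_sb hC i
  right_inv := sb_sb hC i

theorem hat_eq (hC : SimplyLaced C) (i : Fin r) (y : (Fin r → ℤ) → CQ r)
    (hy : ∀ l, ¬ IsDom C l → y l = 0) (l : Fin r → ℤ) : hat C i y l = y l - y (sb C i l) := by
  unfold hat
  rcases lt_trichotomy (ip C (al i) l) (-1) with h | h | h
  · rw [if_neg (by omega), if_neg (by omega), hy l (fun hd => by have := hd i; omega), zero_sub]
    rfl
  · rw [if_neg (by omega), if_pos h]
    have h1 : sb C i l = l := by
      unfold sb
      rw [h]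
      simp
    rw [h1, sub_self]
  · rw [if_pos (by omega), hy (sb C i l) (fun hd => by
      have := hd i
      rw [sb_ip hC] at this
      omega), sub_zero]

end

/-- KAP -/
theorem kap (cmp : CmpStmt) (tri : TriStmt) (gdc : GdcStmt) (wal : WalStmt) (rel : RelStmt) :
    KapStmt := by
  classical
  intro r C hC K _ _ N hN χ hχ c hc M hM
  have hMg : GoodU hC χ M := ((gdc r C hC K N χ hχ c hc).1 M).2 fun i => (hM i).le
  have hgd : ∀ l, IsDom C l → GoodU hC χ (M - l) := by
    intro l hl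
    refine ((gdc r C hC K N χ hχ c hc).1 (M - l)).2 fun i => ?_
    rw [ip_sub_right, hM i]
    have := hl i
    omega
  have hdom : ∀ n, GoodU hC χ n → IsDom C (M - n) := by
    intro n hn i
    have h1 := ((gdc r C hC K N χ hχ c hc).1 n).1 hn i
    rw [ip_sub_right, hM i]
    omega
  have hex : ∀ l : Fin r → ℤ, ∃ k : XX C K → XX C K → ℂ, IsKer k ∧ (IsDom C l →
      ∀ n, bt hC χ k M n = if n = M - l then 1 else 0) := by
    intro l
    by_cases hl : IsDom C l
    · obtain ⟨k, h1, h2⟩ := ex_kl cmp tri gdc hC hχ hc hM l hl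
      exact ⟨k, h1, fun _ => h2⟩
    · exact ⟨0, isKer_zero hC, fun h => absurd h hl⟩
  choose kl hkl hkl2 using hex
  obtain ⟨y, hy⟩ : ∃ y : (Fin r → ℤ) → CQ r,
      y = fun l => if IsDom C l then ng r (sA hC (kl l)) else 0 := ⟨_, rfl⟩
  have hy1 : ∀ l, IsDom C l → y l = ng r (sA hC (kl l)) := by
    intro l hl
    rw [hy]
    exact if_pos hl
  have hy0 : ∀ l, ¬ IsDom C l → y l = 0 := by
    intro l hl
    rw [hy]
    exact if_neg hl
  -- the row M
  have hrow : ∀ (l : Fin r → ℤ), IsDom C l → ∀ k : XX C K → XX C K → ℂ, IsKer k → ∀ m',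
      bt hC χ (kmul (kl l) k) M m' = bt hC χ k (M - l) m' := by
    intro l hl k hk m'
    rw [((cmp r C hC K N χ hχ _ _ (hkl l) hk M hMg).2 m').1,
      finsum_eq_single _ (M - l) (fun n hn => by rw [hkl2 l hl n, if_neg hn, zero_mul]),
      hkl2 l hl, if_pos rfl, one_mul]
  refine ⟨y, ?_, ?_, ?_⟩
  · intro l
    by_cases hl : IsDom C l
    · rw [hy1 l hl]
      exact sA_inv hC (hkl l)
    · rw [hy0 l hl]
      exact zero_mem _
  · intro T hT i l hli hlj
    have hl : IsDom C l := by
      intro j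
      by_cases hj : j = i
      · rw [hj]
        exact hli
      · have h1 := hlj j hj
        have h2 : (0 : ℤ) ≤ 2 * (rT T C : ℤ) := by positivity
        exact h2.trans h1
    obtain ⟨k, hk, hkT, hrad⟩ := ex_ker (K := K) hC T hT
    have hTk : T = ng r (sA hC k) := by
      ext ν
      rw [ng_coeff, sA_coeff hC hk, hkT, neg_neg]
    -- the product
    obtain ⟨s, hs⟩ : ∃ s : Finset (Fin r → ℤ),
        s = (cmp r C hC K N χ hχ k k hk hk (M - l) (hgd l hl)).1.toFinset := ⟨_, rfl⟩
    have hs' : ∀ n, n ∈ s ↔ bt hC χ k (M - l) n ≠ 0 := by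
      intro n
      rw [hs, Set.Finite.mem_toFinset]
      rfl
    have hprod : kmul k (kl l) = ∑ n ∈ s, bt hC χ k (M - l) n • kl (M - n) := by
      have hK1 := (hKer r C hC K).2.1 _ _ hk (hkl l)
      have hK2 : IsKer (∑ n ∈ s, bt hC χ k (M - l) n • kl (M - n)) :=
        isKer_sum hC s _ (fun n => kl (M - n)) fun n _ => hkl (M - n)
      have hK3 := (hKer r C hC K).2.2.2.2.1 (-1) _ hK2
      have h0 := (tri r C hC K N χ hχ c hc M hM).2 _ ((hKer r C hC K).2.2.2.1 _ _ hK1 hK3) (by
        intro ν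
        rw [((cmp r C hC K N χ hχ _ _ hK1 hK3 M hMg).2 (M - ν)).2.1,
          ((cmp r C hC K N χ hχ _ _ hK2 hK2 M hMg).2 (M - ν)).2.2.1,
          bt_sum cmp hC hχ hMg s _ (fun n => kl (M - n)) (fun n _ => hkl (M - n)),
          kmul_comm hC hk (hkl l), hrow l hl k hk]
        have h3 : ∑ n ∈ s, bt hC χ k (M - l) n * bt hC χ (kl (M - n)) M (M - ν) =
            ∑ n ∈ s, if M - ν = n then bt hC χ k (M - l) n else 0 := by
          refine Finset.sum_congr rfl fun n hn => ?_
          have h4 := hdom n (bt_good ((hs' n).1 hn))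
          rw [hkl2 (M - n) h4 (M - ν), sub_sub_cancel]
          split_ifs
          · rw [mul_one]
          · rw [mul_zero]
        rw [h3, Finset.sum_ite_eq]
        by_cases h5 : M - ν ∈ s
        · rw [if_pos h5]
          ring
        · rw [if_neg h5]
          have h6 : bt hC χ k (M - l) (M - ν) = 0 := by
            by_contra h7
            exact h5 ((hs' _).2 h7)
          rw [h6]
          ring)
      have h1 : kmul k (kl l) + (-1 : ℂ) • (∑ n ∈ s, bt hC χ k (M - l) n • kl (M - n)) = 0 := h0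
      rw [neg_one_smul, add_neg_eq_zero] at h1
      exact h1
    have hTy : T * y l = ∑ n ∈ s, bt hC χ k (M - l) n • y (M - n) := by
      rw [hy1 l hl]
      conv_lhs => rw [hTk]
      rw [← map_mul, ← sA_mul hC hk (hkl l), hprod,
        sA_sum hC s _ (fun n => kl (M - n)) (fun n _ => hkl (M - n)), map_sum]
      refine Finset.sum_congr rfl fun n hn => ?_
      rw [map_smul, hy1 (M - n) (hdom n (bt_good ((hs' n).1 hn)))]
    have hTy2 : T * y l = ∑ᶠ l', bt hC χ k (M - l) (M - l') • y l' := by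
      rw [hTy]
      have h1 : ∑ n ∈ s, bt hC χ k (M - l) n • y (M - n) =
          ∑ᶠ n, bt hC χ k (M - l) n • y (M - n) := by
        rw [finsum_eq_sum_of_support_subset (s := s)]
        intro n hn
        rw [Finset.mem_coe, hs']
        intro h
        exact hn (by show bt hC χ k (M - l) n • y (M - n) = 0; rw [h, zero_smul])
      rw [h1, ← finsum_comp_equiv (Equiv.subLeft M)]
      refine finsum_congr fun l' => ?_
      show bt hC χ k (M - l) (M - l') • y (M - (M - l')) = _
      rw [sub_sub_cancel]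
    -- the entries
    have hent : ∀ l', bt hC χ k (M - l) (M - l') • y l' =
        T.coeff (l' - l) • y l' - T.coeff (sb C i l' - l) • y l' := by
      intro l'
      by_cases hl' : IsDom C l'
      · have h1 := wal r C hC K N χ hχ c hc i k (rT T C) hk hrad (M - l) (M - l')
          ((gdc r C hC K N χ hχ c hc).1 _ |>.1 (hgd l hl))
          ((gdc r C hC K N χ hχ c hc).1 _ |>.1 (hgd l' hl')) (by
            intro j hj
            rw [ip_sub_right, hM j]
            have h2 : 2 * (rT T C : ℤ) ≤ ip C (al j) l := hlj j hj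
            omega)
        rw [h1, hkT, hkT, ← sub_smul]
        have h2 : -(M - l' - (M - l)) = l' - l := by abel
        have h3 : -(M - l' + (c i + 1 - ip C (al i) (M - l')) • al i - (M - l)) =
            sb C i l' - l := by
          unfold sb
          rw [ip_sub_right, hM i]
          have h4 : c i + 1 - (c i - ip C (al i) l') = ip C (al i) l' + 1 := by ring
          rw [h4]
          abel
        rw [h2, h3]
      · rw [hy0 l' hl', smul_zero, smul_zero, smul_zero, sub_zero]
    have hf1 : (Function.support fun l' : Fin r → ℤ => T.coeff (l' - l) • y l').Finite := by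
      refine ((Finset.finite_toSet T.coeff.support).preimage
        ((sub_left_injective (b := l)).injOn)).subset ?_
      intro l' hl'
      rw [Set.mem_preimage, Finset.mem_coe, Finsupp.mem_support_iff]
      intro h
      exact hl' (by show T.coeff (l' - l) • y l' = 0; rw [h, zero_smul])
    have hf2 : (Function.support fun l' : Fin r → ℤ => T.coeff (sb C i l' - l) • y l').Finite := by
      refine ((Finset.finite_toSet T.coeff.support).preimage
        (((sub_left_injective (b := l)).comp (sbE hC i).injective).injOn)).subset ?_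
      intro l' hl'
      rw [Set.mem_preimage, Finset.mem_coe, Finsupp.mem_support_iff]
      intro h
      exact hl' (by show T.coeff (sb C i l' - l) • y l' = 0; exact (by
        have h' : T.coeff (sb C i l' - l) = 0 := h
        rw [h', zero_smul]))
    have hf3 : (Function.support fun l' : Fin r → ℤ => T.coeff (l' - l) • y (sb C i l')).Finite := by
      refine ((Finset.finite_toSet T.coeff.support).preimage
        ((sub_left_injective (b := l)).injOn)).subset ?_
      intro l' hl'
      rw [Set.mem_preimage, Finset.mem_coe, Finsupp.mem_support_iff]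
      intro h
      exact hl' (by show T.coeff (l' - l) • y (sb C i l') = 0; rw [h, zero_smul])
    rw [hTy2, finsum_congr hent, finsum_sub_distrib hf1 hf2]
    have hr1 : ∑ᶠ l', T.coeff (sb C i l' - l) • y l' = ∑ᶠ l', T.coeff (l' - l) • y (sb C i l') := by
      rw [← finsum_comp_equiv (sbE hC i)]
      refine finsum_congr fun l' => ?_
      show T.coeff (sb C i (sb C i l') - l) • y (sb C i l') = _
      rw [sb_sb hC]
    have hr2 : ∑ μ ∈ T.coeff.support, T.coeff μ • hat C i y (l + μ) =
        ∑ᶠ l', T.coeff (l' - l) • (y l' - y (sb C i l')) := by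
      have h1 : ∑ μ ∈ T.coeff.support, T.coeff μ • hat C i y (l + μ) =
          ∑ᶠ μ, T.coeff μ • hat C i y (l + μ) := by
        rw [finsum_eq_sum_of_support_subset (s := T.coeff.support)]
        intro μ hμ
        rw [Finset.mem_coe, Finsupp.mem_support_iff]
        intro h
        exact hμ (by show T.coeff μ • hat C i y (l + μ) = 0; rw [h, zero_smul])
      rw [h1, ← finsum_comp_equiv (Equiv.subRight l)]
      refine finsum_congr fun l' => ?_
      show T.coeff (l' - l) • hat C i y (l + (l' - l)) = _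
      rw [add_sub_cancel, hat_eq hC i y hy0]
    rw [hr1, hr2, ← finsum_sub_distrib hf1 hf3]
    exact finsum_congr fun l' => (smul_sub _ _ _).symm
  · intro f ψ hf hk l hl
    have h1 := (rel r C hC K N hN χ hχ (kl l) (hkl l) f (ψ (sA hC (kl l))) hf
      (hk (kl l) (hkl l)) M hMg).2
    rw [finsum_eq_single _ (M - l) (fun n hn => by rw [hkl2 l hl n, if_neg hn, zero_mul]),
      hkl2 l hl, if_pos rfl, one_mul] at h1
    rw [hy1 l hl, ng_ng]
    exact h1.symm

end Pool.Agent.WHC.H39
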